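import Pool.Agent.Q134.Shadow.Main

/-!
# The shadow of a Vietoris-Rips complex of a compact set need not be an ANR

The example is the set `M` of the points `c = (0, -1/10, 0)`, `d = (0, 22/25, 0)`, `a = (-1/2, 0, 0)`,
`b = (1/2, 0, 0)`, `aₙ = (-1/2 + εₙ, 0, δₙ)`, `bₙ = (1/2 - εₙ, 0, δₙ)`, `n = 0, 1, …`, where
`δₙ = 2^(-n-1)` and `εₙ = δₙ² / 100`. At scale `1` the only simplices which meet both `{a, a₀, …}` and
`{b, b₀, …}` are faces of the triangles `aₙ bₙ c`. Near the origin, which lies on the edge `c d`, the
shadow consists of this edge and of pieces of the triangles, which lie in different planes and do not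
meet the edge. So the shadow is not locally connected at the origin.
-/

set_option autoImplicit false

namespace Pool.Agent.Results.MP_68dc86_gt.ShadowNotANR

open Pool.Agent.Q134.Shadow

/-- There is a nonempty compact set `M` in `ℝ³` such that the shadow of the Vietoris-Rips complex of
`M` at scale `1` (simplices: the nonempty finite subsets of diameter `< 1`) is not an absolute
neighbourhood retract. -/
theorem result : ∃ M : Set (EuclideanSpace ℝ (Fin 3)), M.Nonempty ∧ IsCompact M ∧
    ¬ IsANR (shadow 1 M) :=
  ⟨MM, ⟨pc, pc_mem⟩, compact_MM, not_anr⟩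

end Pool.Agent.Results.MP_68dc86_gt.ShadowNotANR
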